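import Pool.Agent.Lib.H30F.SD
import Pool.Agent.Lib.H47T.F1

/-!
# H26P, file A: removing and adding elements of a poset (MP_33911d, plane 2-factor)
-/

set_option autoImplicit false
set_option linter.unusedSectionVars false

namespace H26P

open Finset H98P H63F H30F

section cx

variable {E : Type*} [Fintype E] [DecidableEq E]

/-- Deletion of a vertex with acyclic link. -/
theorem ac_del {K : Finset E → Prop} (hK : Dn K) (x : E) (h : AC K)
    (hl : AC fun s => x ∉ s ∧ K (insert x s)) : AC fun s => x ∉ s ∧ K s := by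
  classical
  intro z hz hb
  obtain ⟨c, hc, hcb⟩ := h z (fun s hs => (hz s hs).2) hb
  have hzx : ∀ s, x ∈ s → z s = 0 := fun s hs => by
    by_contra h1
    exact (hz s h1).1 hs
  have hcompl : ∀ r : Finset E, x ∉ r → rᶜ = insert x (insert x r)ᶜ := by
    intro r hr
    ext y
    rw [mem_compl, mem_insert, mem_compl, mem_insert]
    constructor
    · intro h
      by_cases hy : y = x
      · exact Or.inl hy
      · exact Or.inr fun h1 => h1.elim hy h
    · rintro (h | h) h1
      · exact hr (h ▸ h1)
      · exact h (Or.inr h1)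
  have hnx : ∀ r : Finset E, x ∉ (insert x r)ᶜ := fun r h1 =>
    (mem_compl.1 h1) (mem_insert_self _ _)
  obtain ⟨c1, hc1⟩ : ∃ c1 : Finset E → ZMod 2, ∀ s, c1 s = if x ∈ s then 0 else c (insert x s) :=
    ⟨_, fun _ => rfl⟩
  obtain ⟨c0, hc0⟩ : ∃ c0 : Finset E → ZMod 2, ∀ s, c0 s = if x ∈ s then 0 else c s :=
    ⟨_, fun _ => rfl⟩
  have h1 : ∀ r, bd c1 r = 0 := by
    intro r
    by_cases hx : x ∈ r
    · unfold bd
      refine sum_eq_zero fun e _ => ?_
      rw [hc1, if_pos (mem_insert_of_mem hx)]
    · have h2 : bd c (insert x r) = 0 := by rw [hcb, hzx _ (mem_insert_self _ _)]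
      unfold bd at h2 ⊢
      rw [hcompl r hx, sum_insert (hnx r), hc1, if_pos (mem_insert_self _ _), zero_add, ← h2]
      refine sum_congr rfl fun e he => ?_
      have hex : x ∉ insert e r := by
        intro h3
        rcases mem_insert.1 h3 with h4 | h4
        · exact hnx r (h4 ▸ he)
        · exact hx h4
      rw [hc1, if_neg hex, insert_comm]
  obtain ⟨c2, hc2, hc2b⟩ := hl c1 (fun s hs => by
    rw [hc1] at hs
    by_cases hx : x ∈ s
    · rw [if_pos hx] at hs
      exact absurd rfl hs
    · rw [if_neg hx] at hs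
      exact ⟨hx, hc _ hs⟩) h1
  refine ⟨fun s => c0 s + c2 s, fun s hs => ?_, fun r => ?_⟩
  · by_cases h2 : c2 s = 0
    · have h3 : c0 s ≠ 0 := by
        intro h4
        apply hs
        show c0 s + c2 s = 0
        rw [h4, h2, add_zero]
      rw [hc0] at h3
      by_cases hx : x ∈ s
      · rw [if_pos hx] at h3
        exact absurd rfl h3
      · rw [if_neg hx] at h3
        exact ⟨hx, hc _ h3⟩
    · exact ⟨(hc2 s h2).1, hK _ _ (subset_insert _ _) (hc2 s h2).2⟩
  · rw [bd_add, hc2b]
    by_cases hx : x ∈ r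
    · have h2 : bd c0 r = 0 := by
        unfold bd
        refine sum_eq_zero fun e _ => ?_
        rw [hc0, if_pos (mem_insert_of_mem hx)]
      rw [h2, hc1, if_pos hx, hzx _ hx, add_zero]
    · have h2 : bd c r = c1 r + bd c0 r := by
        unfold bd
        rw [hcompl r hx, sum_insert (hnx r), sum_insert (hnx r), hc1, if_neg hx, hc0 (insert x r),
          if_pos (mem_insert_self _ _), zero_add]
        congr 1
        refine sum_congr rfl fun e he => ?_
        have hex : x ∉ insert e r := by
          intro h3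
          rcases mem_insert.1 h3 with h4 | h4
          · exact hnx r (h4 ▸ he)
          · exact hx h4
        rw [hc0, if_neg hex]
      rw [hcb] at h2
      rw [h2, add_comm]

end cx

section ch

variable {α : Type*} [PartialOrder α] [Fintype α] [DecidableEq α]

theorem dn_link (P : α → Prop) (x : α) : Dn fun s : Finset α => x ∉ s ∧ Ch P (insert x s) :=
  fun _ _ h hc => ⟨fun hx => hc.1 (h hx), ch_dn _ _ (insert_subset_insert _ h) hc.2⟩

/-- The link of an element with acyclic lower part. -/
theorem ac_link_lt {P : α → Prop} {x : α} (hx : P x) (h : AC (Ch fun y => P y ∧ y < x)) :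
    AC fun s : Finset α => x ∉ s ∧ Ch P (insert x s) := by
  classical
  refine H47T.ac_fiber _ (dn_link P x) (fun y => ¬ y < x) fun τ hτ hKτ => ?_
  refine ac_congr (fun ρ => ?_) h
  constructor
  · intro hρ
    refine ⟨fun y hy => not_not.2 (hρ.1 y hy).2, fun h1 => ?_, ?_, ?_⟩
    · rcases mem_union.1 h1 with h2 | h2
      · exact hKτ.1 h2
      · exact lt_irrefl _ (hρ.1 x h2).2
    · intro y hy
      rcases mem_insert.1 hy with rfl | hy
      · exact hx
      rcases mem_union.1 hy with h2 | h2
      · exact hKτ.2.1 y (mem_insert_of_mem h2)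
      · exact (hρ.1 y h2).1
    · have key : ∀ y ∈ insert x τ, x ≤ y := by
        intro y hy
        rcases mem_insert.1 hy with rfl | hy'
        · exact le_refl _
        · rcases hKτ.2.2 x (mem_insert_self _ _) y hy with h3 | h3
          · exact h3
          · rcases eq_or_lt_of_le h3 with h4 | h4
            · exact le_of_eq h4.symm
            · exact absurd h4 (hτ y hy')
      have split : ∀ y ∈ insert x (τ ∪ ρ), y ∈ insert x τ ∨ y ∈ ρ := by
        intro y hy
        rcases mem_insert.1 hy with h2 | h2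
        · exact Or.inl (mem_insert.2 (Or.inl h2))
        · rcases mem_union.1 h2 with h3 | h3
          · exact Or.inl (mem_insert_of_mem h3)
          · exact Or.inr h3
      intro y hy z hz
      rcases split y hy with h2 | h2 <;> rcases split z hz with h3 | h3
      · exact hKτ.2.2 y h2 z h3
      · exact Or.inr ((hρ.1 z h3).2.le.trans (key y h2))
      · exact Or.inl ((hρ.1 y h2).2.le.trans (key z h3))
      · exact hρ.2 y h2 z h3
  · rintro ⟨h1, -, h3⟩
    refine ⟨fun y hy => ⟨h3.1 y (mem_insert_of_mem (mem_union_right _ hy)), not_not.1 (h1 y hy)⟩,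
      fun y hy z hz => h3.2 y (mem_insert_of_mem (mem_union_right _ hy)) z
        (mem_insert_of_mem (mem_union_right _ hz))⟩

/-- Removing an element with acyclic lower part. -/
theorem ac_rem_one {P : α → Prop} {x : α} (hx : P x) (hP : AC (Ch P))
    (h : AC (Ch fun y => P y ∧ y < x)) : AC (Ch fun y => P y ∧ y ≠ x) := by
  refine ac_congr (fun s => ?_) (ac_del ch_dn x hP (ac_link_lt hx h))
  constructor
  · rintro ⟨h1, h2⟩
    exact ⟨fun y hy => ⟨h2.1 y hy, fun e => h1 (e ▸ hy)⟩, h2.2⟩
  · intro h1
    exact ⟨fun h2 => (h1.1 x h2).2 rfl, fun y hy => (h1.1 y hy).1, h1.2⟩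

/-- Adding an element with acyclic lower part. -/
theorem ac_add_one {P : α → Prop} {x : α} (hx : P x) (hP : AC (Ch fun y => P y ∧ y ≠ x))
    (h : AC (Ch fun y => P y ∧ y < x)) : AC (Ch P) := by
  have hs : Dn fun s : Finset α => Ch P (insert x s) := fun s t hst ht =>
    ch_dn _ _ (insert_subset_insert _ hst) ht
  have h2 : AC fun s : Finset α => Ch P (insert x s) :=
    H96H.ac_cone hs x fun s hs' => by rwa [insert_idem]
  have h12 : AC fun s : Finset α => Ch (fun y => P y ∧ y ≠ x) s ∧ Ch P (insert x s) := by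
    refine ac_congr (fun s => ?_) (ac_link_lt hx h)
    constructor
    · rintro ⟨h3, h4⟩
      exact ⟨⟨fun y hy => ⟨h4.1 y (mem_insert_of_mem hy), fun e => h3 (e ▸ hy)⟩,
        fun y hy z hz => h4.2 y (mem_insert_of_mem hy) z (mem_insert_of_mem hz)⟩, h4⟩
    · rintro ⟨h3, h4⟩
      exact ⟨fun hxs => (h3.1 x hxs).2 rfl, h4⟩
  refine ac_congr (fun s => ?_) (ac_union ch_dn hs hP h2 h12)
  constructor
  · rintro (h3 | h3)
    · exact ch_mono (fun y hy => hy.1) h3
    · exact ch_dn _ _ (subset_insert _ _) h3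
  · intro h3
    by_cases hxs : x ∈ s
    · right
      rwa [insert_eq_of_mem hxs]
    · left
      exact ⟨fun y hy => ⟨h3.1 y hy, fun e => hxs (e ▸ hy)⟩, h3.2⟩

/-- REMOVAL (Quillen's fibre lemma for an inclusion): the elements with `R` can be removed if their
lower parts without `R` are acyclic. -/
theorem ac_remove {R : α → Prop} : ∀ (n : ℕ) (P : α → Prop),
    (∀ s : Finset α, (∀ x ∈ s, P x ∧ R x) → s.card ≤ n) →
    (∀ x, P x → R x → AC (Ch fun y => P y ∧ ¬ R y ∧ y < x)) → AC (Ch P) →
    AC (Ch fun y => P y ∧ ¬ R y) := by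
  classical
  intro n
  induction n with
  | zero =>
    intro P hn _ hP
    refine ac_congr (fun s => ?_) hP
    constructor
    · intro h1
      refine ⟨fun y hy => ⟨h1.1 y hy, fun hR => ?_⟩, h1.2⟩
      have := hn {y} (fun z hz => by rw [mem_singleton.1 hz]; exact ⟨h1.1 y hy, hR⟩)
      simp at this
    · exact ch_mono fun y hy => hy.1
  | succ n ih =>
    intro P hn h hP
    by_cases hex : ∃ x, P x ∧ R x
    · obtain ⟨x0, hx0⟩ := hex
      obtain ⟨x, hx, hmin⟩ := (univ.filter fun x => P x ∧ R x).exists_minimal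
        ⟨x0, mem_filter.2 ⟨mem_univ _, hx0⟩⟩
      have hx' := (mem_filter.1 hx).2
      have hlow : ∀ y, P y → y < x → ¬ R y := by
        intro y hy hyx hR
        have h1 := hmin (mem_filter.2 ⟨mem_univ y, hy, hR⟩) hyx.le
        exact lt_irrefl _ (hyx.trans_le h1)
      have h1 : AC (Ch fun y => P y ∧ y < x) := by
        refine ac_congr (fun s => ?_) (h x hx'.1 hx'.2)
        constructor
        · exact ch_mono fun y hy => ⟨hy.1, hy.2.2⟩
        · exact ch_mono fun y hy => ⟨hy.1, hlow y hy.1 hy.2, hy.2⟩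
      have h2 := ac_rem_one hx'.1 hP h1
      have h3 := ih (fun y => P y ∧ y ≠ x) ?_ ?_ h2
      · refine ac_congr (fun s => ?_) h3
        constructor
        · exact ch_mono fun y hy => ⟨hy.1.1, hy.2⟩
        · exact ch_mono fun y hy => ⟨⟨hy.1, fun e => hy.2 (e ▸ hx'.2)⟩, hy.2⟩
      · intro s hs
        have hxs : x ∉ s := fun hxs => (hs x hxs).1.2 rfl
        have h4 := hn (insert x s) (fun y hy => by
          rcases mem_insert.1 hy with rfl | hy
          · exact hx'
          · exact ⟨(hs y hy).1.1, (hs y hy).2⟩)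
        rw [card_insert_of_notMem hxs] at h4
        omega
      · intro y hy hR
        refine ac_congr (fun s => ?_) (h y hy.1 hR)
        constructor
        · exact ch_mono fun z hz => ⟨⟨hz.1, fun e => hz.2.1 (e ▸ hx'.2)⟩, hz.2.1, hz.2.2⟩
        · exact ch_mono fun z hz => ⟨hz.1.1, hz.2.1, hz.2.2⟩
    · refine ac_congr (fun s => ?_) hP
      constructor
      · intro h1
        exact ⟨fun y hy => ⟨h1.1 y hy, fun hR => hex ⟨y, h1.1 y hy, hR⟩⟩, h1.2⟩
      · exact ch_mono fun y hy => hy.1

theorem ac_remove' {R P : α → Prop}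
    (h : ∀ x, P x → R x → AC (Ch fun y => P y ∧ ¬ R y ∧ y < x)) (hP : AC (Ch P)) :
    AC (Ch fun y => P y ∧ ¬ R y) :=
  ac_remove (Fintype.card α) P (fun s _ => card_le_univ s) h hP

end ch

/-- REDUCTION: if for every bad connected `M` the bad proper subsets of `M` have an acyclic order
complex, then the bad disconnected sets have one (if the whole set is bad). -/
theorem reduce {V : Type*} [Fintype V] [DecidableEq V] {Bad Cn : Finset V → Prop}
    (h : ∀ M, Bad M → Cn M → AC (Ch fun W : Finset V => Bad W ∧ W < M)) :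
    ∀ (n : ℕ) (M : Finset V), M.card ≤ n → Bad M →
      AC (Ch fun W : Finset V => Bad W ∧ ¬ Cn W ∧ W ≤ M) := by
  classical
  intro n
  induction n with
  | zero =>
    intro M hM hB
    by_cases hc : Cn M
    · have hM0 : M = ∅ := card_eq_zero.1 (by omega)
      refine ac_congr (fun s => ?_) (h M hB hc)
      constructor
      · refine ch_mono fun W hW => ?_
        exact absurd hW.2 (by rw [hM0]; exact not_lt_bot)
      · refine ch_mono fun W hW => ⟨hW.1, lt_of_le_of_ne hW.2.2 fun e => hW.2.1 (e ▸ hc)⟩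
    · exact ac_ch_cone (a := M) ⟨hB, hc, le_refl _⟩ fun W hW => Or.inr hW.2.2
  | succ n ih =>
    intro M hM hB
    by_cases hc : Cn M
    · have h1 := ac_remove' (P := fun W : Finset V => Bad W ∧ W < M) (R := Cn) ?_ (h M hB hc)
      · refine ac_congr (fun s => ?_) h1
        constructor
        · exact ch_mono fun W hW => ⟨hW.1.1, hW.2, hW.1.2.le⟩
        · exact ch_mono fun W hW => ⟨⟨hW.1, lt_of_le_of_ne hW.2.2 fun e => hW.2.1 (e ▸ hc)⟩, hW.2.1⟩
      · intro x hx hxc
        have h2 := card_lt_card hx.2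
        refine ac_congr (fun s => ?_) (ih x (by omega) hx.1)
        constructor
        · exact ch_mono fun W hW => ⟨⟨hW.1, lt_of_le_of_lt hW.2.2 hx.2⟩, hW.2.1,
            lt_of_le_of_ne hW.2.2 fun e => hW.2.1 (e ▸ hxc)⟩
        · exact ch_mono fun W hW => ⟨hW.1.1, hW.2.1, hW.2.2.le⟩
    · exact ac_ch_cone (a := M) ⟨hB, hc, le_refl _⟩ fun W hW => Or.inr hW.2.2

/-- The version for the whole set. -/
theorem reduce_univ {V : Type*} [Fintype V] [DecidableEq V] {Bad Cn : Finset V → Prop}
    (h : ∀ M, Bad M → Cn M → AC (Ch fun W : Finset V => Bad W ∧ W < M)) (hB : Bad univ) :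
    AC (Ch fun W : Finset V => Bad W ∧ ¬ Cn W) := by
  refine ac_congr (fun s => ?_) (reduce h (Fintype.card V) univ le_rfl hB)
  constructor
  · exact ch_mono fun W hW => ⟨hW.1, hW.2.1⟩
  · exact ch_mono fun W hW => ⟨hW.1, hW.2, subset_univ _⟩

end H26P
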