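import Pool.Agent.Lib.H26P.A

/-!
# H26P, file B: the dual tree lemma (MP_33911d, plane 2-factor; proof of helper8)
-/

set_option autoImplicit false
set_option linter.unusedSectionVars false

namespace H26P

open Finset H98P H63F H30F

variable {V : Type*} [Fintype V] [DecidableEq V]

/-- Any two vertices of `M` are joined by a walk inside `M`. -/
def Conn (G : SimpleGraph V) (M : Finset V) : Prop :=
  ∀ x ∈ M, ∀ y ∈ M, ∃ p : G.Walk x y, ∀ w ∈ p.support, w ∈ M

/-- The exchange property of the family `K` for the paths inside `M`. -/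
def Exch (G : SimpleGraph V) (M : Finset V) (K : Finset V → Prop) : Prop :=
  ∀ (A : Finset V) (b d : V), A ⊆ M → b ∈ M → d ∈ M → b ≠ d → b ∉ A → d ∉ A →
    K (insert b A) → K (insert d A) →
    (∃ p : G.Walk b d, p.IsPath ∧ ∀ w ∈ p.support, w ∈ M ∧
      (w = b ∨ w = d ∨ (w ∉ A ∧ ¬ K (insert w A)))) → K (insert b (insert d A))

/-- A connected set has a non-cut vertex different from a given vertex. -/
theorem exists_leaf {G : SimpleGraph V} {M : Finset V} (hM : Conn G M) {w0 y : V} (hw0 : w0 ∈ M)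
    (hy : y ∈ M) (hne : y ≠ w0) : ∃ b ∈ M, b ≠ w0 ∧ Conn G (M.erase b) := by
  classical
  have hex : ∀ x, x ∈ M → ∃ k : ℕ, ∃ p : G.Walk w0 x, p.length = k ∧ ∀ w ∈ p.support, w ∈ M := by
    intro x hx
    obtain ⟨p, hp⟩ := hM w0 hw0 x hx
    exact ⟨_, p, rfl, hp⟩
  obtain ⟨len, hlen⟩ : ∃ len : V → ℕ, ∀ x, x ∈ M →
      (∃ p : G.Walk w0 x, p.length = len x ∧ ∀ w ∈ p.support, w ∈ M) ∧
      ∀ p : G.Walk w0 x, (∀ w ∈ p.support, w ∈ M) → len x ≤ p.length := by
    refine ⟨fun x => if h : x ∈ M then Nat.find (hex x h) else 0, fun x hx => ?_⟩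
    simp only [dif_pos hx]
    exact ⟨Nat.find_spec (hex x hx), fun p hp => Nat.find_min' (hex x hx) ⟨p, rfl, hp⟩⟩
  obtain ⟨b, hb, hmax⟩ := M.exists_max_image len ⟨w0, hw0⟩
  have hb0 : b ≠ w0 := by
    intro e
    obtain ⟨p, hp, _⟩ := (hlen y hy).1
    have h1 := (hlen w0 hw0).2 SimpleGraph.Walk.nil (by simp [hw0])
    rw [SimpleGraph.Walk.length_nil] at h1
    have h2 := hmax y hy
    rw [e] at h2
    have h3 : p.length = 0 := by omega
    exact hne (SimpleGraph.Walk.eq_of_length_eq_zero h3).symm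
  have key : ∀ x ∈ M.erase b, ∃ p : G.Walk w0 x, ∀ w ∈ p.support, w ∈ M.erase b := by
    intro x hx
    obtain ⟨hxb, hxM⟩ := mem_erase.1 hx
    obtain ⟨p, hp, hpM⟩ := (hlen x hxM).1
    refine ⟨p, fun w hw => mem_erase.2 ⟨fun e => ?_, hpM w hw⟩⟩
    subst e
    have h1 := (hlen w hb).2 (p.takeUntil w hw)
      (fun v hv => hpM v (p.support_takeUntil_subset_support hw hv))
    have h2 : (p.takeUntil w hw).length < p.length :=
      SimpleGraph.Walk.length_takeUntil_lt_length hw (Ne.symm hxb)
    have h3 := hmax x hxM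
    omega
  refine ⟨b, hb, hb0, fun x hx y hy => ?_⟩
  obtain ⟨p, hp⟩ := key x hx
  obtain ⟨q, hq⟩ := key y hy
  refine ⟨p.reverse.append q, fun w hw => ?_⟩
  rw [SimpleGraph.Walk.mem_support_append_iff, SimpleGraph.Walk.support_reverse,
    List.mem_reverse] at hw
  exact hw.elim (hp w) (hq w)

/-- The nearest vertex of `K`. -/
theorem nearest {G : SimpleGraph V} {M : Finset V} (hM : Conn G M) {K : Finset V → Prop} {b w0 : V}
    (hb : b ∈ M) (hw0 : w0 ∈ M) (hne : b ≠ w0) (hK : K {w0}) :
    ∃ c ∈ M, b ≠ c ∧ K {c} ∧ ∃ p : G.Walk b c, p.IsPath ∧ ∀ w ∈ p.support, w ∈ M ∧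
      (w = b ∨ w = c ∨ ¬ K {w}) := by
  classical
  have hex : ∃ k : ℕ, ∃ c ∈ M, b ≠ c ∧ K {c} ∧ ∃ p : G.Walk b c, p.IsPath ∧ p.length = k ∧
      ∀ w ∈ p.support, w ∈ M := by
    obtain ⟨p, hp⟩ := hM b hb w0 hw0
    refine ⟨_, w0, hw0, hne, hK, p.bypass, p.bypass_isPath, rfl, fun w hw => hp w ?_⟩
    exact p.support_bypass_subset_support hw
  obtain ⟨c, hc, hbc, hKc, p, hp, hpl, hpM⟩ := Nat.find_spec hex
  refine ⟨c, hc, hbc, hKc, p, hp, fun w hw => ⟨hpM w hw, ?_⟩⟩
  by_cases h1 : w = b
  · exact Or.inl h1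
  by_cases h2 : w = c
  · exact Or.inr (Or.inl h2)
  right; right
  intro hKw
  have h3 : (p.takeUntil w hw).length < p.length :=
    SimpleGraph.Walk.length_takeUntil_lt_length hw h2
  have h4 := Nat.find_min' hex ⟨w, hpM w hw, Ne.symm h1, hKw, p.takeUntil w hw,
    hp.takeUntil hw, rfl, fun v hv => hpM v (p.support_takeUntil_subset_support hw hv)⟩
  omega

/-- DUAL TREE LEMMA. -/
theorem dual_tree {G : SimpleGraph V} : ∀ (n : ℕ) (M : Finset V), M.card ≤ n → M.Nonempty →
    Conn G M → ∀ K : Finset V → Prop, (∀ A B, A ⊆ B → K B → K A) → Exch G M K → ¬ K M →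
    (K ∅ → ∃ w ∈ M, K {w}) → AC (Ch fun W : Finset V => ¬ K W ∧ W < M) := by
  classical
  intro n
  induction n with
  | zero =>
    intro M hM hne
    exact absurd hne (by rw [card_eq_zero.1 (show M.card = 0 by omega)]; exact not_nonempty_empty)
  | succ n ih =>
    intro M hM hne hconn K hdn hex hKM hK0
    by_cases h0 : K ∅
    swap
    · exact ac_ch_cone (a := (∅ : Finset V)) ⟨h0, hne.empty_ssubset⟩
        fun W _ => Or.inl (empty_subset W)
    obtain ⟨w0, hw0, hKw0⟩ := hK0 h0
    obtain ⟨y, hy, hyw⟩ : ∃ y ∈ M, y ≠ w0 := by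
      by_contra hcon
      push Not at hcon
      apply hKM
      rwa [show M = {w0} from eq_singleton_iff_unique_mem.2 ⟨hw0, hcon⟩]
    obtain ⟨b, hb, hbw, hconn'⟩ := exists_leaf hconn hw0 hy hyw
    have hw0' : w0 ∈ M.erase b := mem_erase.2 ⟨Ne.symm hbw, hw0⟩
    have hcard : (M.erase b).card ≤ n := by
      have := card_erase_of_mem hb
      omega
    have hins : insert b (M.erase b) = M := insert_erase hb
    -- the deletion
    have hexD : Exch G (M.erase b) K := by
      rintro A b1 d1 hA hb1 hd1 hne1 hbA hdA h1 h2 ⟨p, hp, hps⟩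
      refine hex A b1 d1 (hA.trans (erase_subset _ _)) (mem_of_mem_erase hb1)
        (mem_of_mem_erase hd1) hne1 hbA hdA h1 h2 ⟨p, hp, fun w hw => ?_⟩
      exact ⟨mem_of_mem_erase (hps w hw).1, (hps w hw).2⟩
    -- the link
    have hexL : Exch G (M.erase b) fun A => K (insert b A) := by
      rintro A b1 d1 hA hb1 hd1 hne1 hbA hdA h1 h2 ⟨p, hp, hps⟩
      have hb1b : b1 ≠ b := (mem_erase.1 hb1).1
      have hd1b : d1 ≠ b := (mem_erase.1 hd1).1
      have h3 := hex (insert b A) b1 d1 ?_ (mem_of_mem_erase hb1) (mem_of_mem_erase hd1) hne1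
        ?_ ?_ ?_ ?_ ⟨p, hp, fun w hw => ?_⟩
      · have e : insert b (insert b1 (insert d1 A)) = insert b1 (insert d1 (insert b A)) := by
          rw [insert_comm b b1, insert_comm b d1]
        show K (insert b (insert b1 (insert d1 A)))
        rw [e]
        exact h3
      · exact insert_subset hb (hA.trans (erase_subset _ _))
      · exact fun h => (mem_insert.1 h).elim hb1b hbA
      · exact fun h => (mem_insert.1 h).elim hd1b hdA
      · rw [insert_comm]
        exact h1
      · rw [insert_comm]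
        exact h2
      · obtain ⟨h4, h5⟩ := hps w hw
        refine ⟨mem_of_mem_erase h4, ?_⟩
        rcases h5 with h5 | h5 | ⟨h5, h6⟩
        · exact Or.inl h5
        · exact Or.inr (Or.inl h5)
        · refine Or.inr (Or.inr ⟨fun h => (mem_insert.1 h).elim (mem_erase.1 h4).1 h5, ?_⟩)
          rw [insert_comm]
          exact h6
    have hL : AC (Ch fun W : Finset V => ¬ K (insert b W) ∧ W < M.erase b) := by
      refine ih (M.erase b) hcard ⟨w0, hw0'⟩ hconn' (fun A => K (insert b A))
        (fun A B hAB h => hdn _ _ (insert_subset_insert _ hAB) h) hexL ?_ ?_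
      · show ¬ K (insert b (M.erase b))
        rwa [hins]
      · intro hKb
        have hKb' : K {b} := hKb
        obtain ⟨c, hc, hbc, hKc, p, hp, hps⟩ := nearest hconn hb hw0 hbw hKw0
        refine ⟨c, mem_erase.2 ⟨Ne.symm hbc, hc⟩, ?_⟩
        refine hex ∅ b c (empty_subset _) hb hc hbc (notMem_empty _) (notMem_empty _) hKb'
          hKc ⟨p, hp, fun w hw => ⟨(hps w hw).1, ?_⟩⟩
        rcases (hps w hw).2 with h | h | h
        · exact Or.inl h
        · exact Or.inr (Or.inl h)
        · exact Or.inr (Or.inr ⟨notMem_empty _, h⟩)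
    have hA : AC (Ch fun W : Finset V => (¬ K W ∧ W < M) ∧ W ≠ M.erase b) := by
      refine ac_closure (fun W : Finset V => W.erase b) (fun W : Finset V => insert b W)
        (Q := fun W : Finset V => ¬ K (insert b W) ∧ W < M.erase b) ?_ ?_ ?_ ?_ ?_ hL
      · rintro W ⟨⟨h1, h2⟩, h3⟩
        refine ⟨fun h4 => h1 (hdn _ _ (fun x hx => ?_) h4), ?_⟩
        · by_cases e : x = b
          · exact mem_insert.2 (Or.inl e)
          · exact mem_insert_of_mem (mem_erase.2 ⟨e, hx⟩)
        · refine lt_of_le_of_ne (erase_subset_erase _ h2.le) fun e => ?_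
          have e' : W.erase b = M.erase b := e
          by_cases hbW : b ∈ W
          · rw [← insert_erase hbW, e', hins] at h2
            exact lt_irrefl _ h2
          · rw [erase_eq_of_notMem hbW] at e'
            exact h3 e'
      · rintro W ⟨h1, h2⟩
        have hbW : b ∉ W := fun h => (mem_erase.1 (h2.le h)).1 rfl
        refine ⟨⟨h1, lt_of_le_of_ne ?_ fun e => ?_⟩, fun e => ?_⟩
        · have h3 := insert_subset_insert b h2.le
          rwa [hins] at h3
        · have e' : insert b W = M := e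
          have h3 : (insert b W).erase b = M.erase b := by rw [e']
          rw [erase_insert hbW] at h3
          exact h2.ne h3
        · have h3 : b ∈ M.erase b := e ▸ mem_insert_self b W
          exact (mem_erase.1 h3).1 rfl
      · exact fun W W' _ _ h => erase_subset_erase _ h
      · exact fun W W' _ _ h => insert_subset_insert _ h
      · intro W _ x hx
        by_cases e : x = b
        · exact mem_insert.2 (Or.inl e)
        · exact mem_insert_of_mem (mem_erase.2 ⟨e, hx⟩)
    by_cases hKM' : K (M.erase b)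
    · refine ac_congr (fun s => ?_) hA
      constructor
      · exact ch_mono fun W hW => hW.1
      · exact ch_mono fun W hW => ⟨hW, fun e => hW.1 (e ▸ hKM')⟩
    · refine ac_add_one (x := M.erase b) ⟨hKM', erase_ssubset hb⟩ hA ?_
      refine ac_congr (fun s => ?_) (ih (M.erase b) hcard ⟨w0, hw0'⟩ hconn' K hdn hexD hKM'
        fun _ => ⟨w0, hw0', hKw0⟩)
      constructor
      · exact ch_mono fun W hW => ⟨⟨hW.1, hW.2.trans (erase_ssubset hb)⟩, hW.2⟩
      · exact ch_mono fun W hW => ⟨hW.1.1, hW.2⟩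

/-- THE COMPLEX PART OF THE PROOF: `Pi` a family of vertex sets (the sets covered by disjoint
cycles), down-closed, with the exchange property inside every set `M`, which contains every
singleton. If the set of all vertices is not in `Pi`, the disconnected sets which are not in `Pi`
have an acyclic order complex. -/
theorem main {G : SimpleGraph V} {Pi : Finset V → Prop} (hdn : ∀ A B, A ⊆ B → Pi B → Pi A)
    (hex : ∀ M, Exch G M Pi) (h0 : Pi ∅) (h1 : ∀ v, Pi {v}) (hV : ¬ Pi univ) :
    AC (Ch fun W : Finset V => ¬ Pi W ∧ ¬ Conn G W) := by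
  refine reduce_univ (Bad := fun W => ¬ Pi W) (Cn := Conn G) (fun M hM hc => ?_) hV
  rcases M.eq_empty_or_nonempty with h | h
  · exact absurd (h ▸ h0) hM
  · exact dual_tree M.card M le_rfl h hc Pi hdn (hex M) hM
      fun _ => ⟨h.choose, h.choose_spec, h1 _⟩

end H26P
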